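import Pool.Agent.MP_ee8c61_ag.TW.Spec
import Pool.Agent.MP_ee8c61_ag.N3.RBS
import Pool.Agent.MP_ee8c61_ag.N3.MkBase

/-! The base over a chart of the blow-up, in every dimension. -/

namespace Pool.Agent.MP_ee8c61_ag.N3.TC

open H59 hiding pd
open M3 MvPolynomial
open M3B1 (pd)
open M3L (aw le_aw inv_mem_aw mem_aw)

namespace RBas

variable {N r : ℕ} {F : Fin r → M3.Po N} {j : Fin r} {u : KK N}

theorem gd [Base] (h1 : ∀ l, xx N l ∈ aw (A0 F j) u)
    (h2 : ∀ V : Vl N, Ov V ↔ ∀ g ∈ aw (A0 F j) u, g ∈ V) (h : F j ≠ 0) (hu : u ∈ A0 F j)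
    (h0 : u ≠ 0) : Gd (pp N (F j)) := by
  have f0 := M3B1.ip_ne h
  obtain ⟨n, p, e⟩ := A0_den h hu
  have p0 : M3.ip N p ≠ 0 := e ▸ mul_ne_zero (pow_ne_zero _ f0) h0
  refine ⟨fun k => f0 (congrArg Subtype.val k), F j * p,
    mul_ne_zero h fun k => p0 (by rw [k, map_zero]), fun l => ?_, n + 1,
    ⟨u⁻¹, mem_Rb.2 fun V hV => (h2 V).1 hV _ inv_mem_aw⟩, Subtype.ext ?_⟩
  · obtain ⟨m, hm⟩ := (mem_aw hu h0).1 (h1 l)
    obtain ⟨n', p', e'⟩ := A0_den h hm
    refine ⟨m + n', F j ^ m * F j ^ (n * m) * p ^ n' * p', ?_⟩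
    simp only [map_mul, map_pow]
    rw [← e', ← e]
    ring
  · change M3.ip N (F j) ^ (n + 1) = u⁻¹ * M3.ip N (F j * p)
    rw [map_mul, ← e]
    field_simp
    ring

theorem bs [Base] {b : Polynomial ℂ} (hb : H10.IsBS F b) (h1 : ∀ l, xx N l ∈ aw (A0 F j) u)
    (h2 : ∀ V : Vl N, Ov V ↔ ∀ g ∈ aw (A0 F j) u, g ∈ V) (hF : F j ≠ 0) (hu : u ∈ A0 F j) :
    ∃ β Q, BSd (pp N (F j)) b β Q := by
  have e0 : ∀ p : M3.Po N, aeval (x0 N) p = M3.ip N p := fun p =>
    DFunLike.congr_fun (algHom_ext fun i => aeval_X _ i : aeval (x0 N) = M3.ip N) p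
  have hne : aeval (x0 N) (F j) ≠ 0 := by rw [e0]; exact M3B1.ip_ne hF
  have hA : aw (A0 F j) u ≤ Rb N := fun g hg => mem_Rb.2 fun V hV => (h2 V).1 hV g hg
  obtain ⟨n, β, Q, h3, h4, h5⟩ := H95G.rowBS (H95G.rowBS2 H95G.rowPHI) (KK N) N r (x0 N) F b j
    (pd N) (Rb N) hb M3B1.pd_X hne (fun l => (pp N (X l)).2)
    fun i => by rw [e0, e0]; exact hA (le_aw (rat_mem i))
  simp only [e0] at h3 h5
  rw [A0, Algebra.adjoin_range_eq_range_aeval] at hu
  obtain ⟨u, rfl⟩ := hu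
  set y : Fin (N + r) → KK N := Fin.append (x0 N) fun i => M3.ip N (F i) / M3.ip N (F j) with hy
  obtain ⟨D, hD, hR⟩ := N3Tw.exists_ring y u
  have e1 : (aeval fun o : Option (Fin (N + r)) => o.elim (aeval y u)⁻¹ y).range =
      aw (A0 F j) (aeval y u) := by
    rw [← Algebra.adjoin_range_eq_range_aeval, aw, A0, ← Algebra.adjoin_union, ← hy]
    congr 1
    ext g
    simp only [Set.mem_range, Option.exists, Option.elim_none, Option.elim_some, Set.mem_union,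
      Set.mem_singleton_iff, or_comm, eq_comm]
  choose p hp using fun l => (e1.ge (h1 l) : xx N l ∈ _)
  obtain ⟨T, t1, t2, t3, t4⟩ := N3Tw.twist _ D hD y p
  have t5 := t4 (Rb N) (e1.le.trans hA)
  have t6 : ∀ c H, T (C c * H) = C c * T H := fun c H => by
    rw [← smul_eq_C_mul, map_smul, smul_eq_C_mul]
  have t7 : ∀ q : Polynomial ℂ, T (Polynomial.aeval (X none) q) = Polynomial.aeval (X none) q :=
    fun q => by
      induction q using Polynomial.induction_on with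
      | C a =>
        rw [Polynomial.aeval_C, Polynomial.aeval_C, MvPolynomial.algebraMap_apply,
          MvPolynomial.algebraMap_apply, ← mul_one (C _), t6, t1, mul_one]
      | add p q hp hq => simp only [map_add, hp, hq]
      | monomial n a h =>
        rw [pow_succ, ← mul_assoc, map_mul (Polynomial.aeval _),
          map_mul (Polynomial.aeval _) (_ * _), Polynomial.aeval_X, Polynomial.aeval_X, mul_comm,
          t2, h, mul_comm]
  have rg : ∀ g ∈ Rb N, g ∈ (ip N).range := fun g hg => ⟨⟨g, hg⟩, rfl⟩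
  refine ⟨fun l => T (β l), T Q, ⟨n, fun l e => rg _ ?_⟩, fun e => rg _ (t5 Q h4 e), ?_⟩
  · have := t5 (C (M3.ip N (F j) ^ n) * β l) (fun e => by rw [coeff_C_mul]; exact h3 l e) e
    rwa [t6, coeff_C_mul] at this
  · rw [← t7, h5, map_add, t6, map_sum]
    refine congrArg _ (Finset.sum_congr rfl fun l _ => ?_)
    rw [add_mul, ← add_assoc, map_add, t3 _ (hR _), mul_assoc, t2, t6, add_mul, ← add_assoc,
      mul_assoc]
    simp only [← hp]
    rfl

end RBas

theorem rBas : SBas := by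
  intro N r F j b hb hF
  obtain ⟨B, h1, h2⟩ := exists_base (aw (A0 F j) 1) aw_fg fun p => le_aw (pol_mem p)
  refine ⟨B, RBas.gd h1 h2 hF (one_mem _) one_ne_zero, fun V => (h2 V).trans ?_,
    RBas.bs hb h1 h2 hF (one_mem _)⟩
  refine ⟨fun h => ⟨fun p => h _ (le_aw (pol_mem p)), fun i => h _ (le_aw (rat_mem i))⟩,
    fun h g hg => ?_⟩
  have hc : ∀ c : ℂ, algebraMap ℂ (KK N) c ∈ V := fun c => (M3.ip N).commutes c ▸ h.1 _
  exact M3L.aw_le (B := VA V hc) (A0_le h.1 h.2) (by rw [inv_one]; exact one_mem _) hg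

end Pool.Agent.MP_ee8c61_ag.N3.TC
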