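import Pool.Agent.MP_ee8c61_ag.TW.Spec
import Pool.Agent.MP_ee8c61_ag.TC.RSs

/-! A valuation ring with enough independent residues is the ring of a divisor. -/

namespace Pool.Agent.MP_ee8c61_ag.N3.TC

open M3 M3E M3RESID M3RESID.CVA Polynomial
open Pool.Agent.MP_ee8c61_ag.TC (Indep)
open Pool.Agent.MP_ee8c61_ag.TC.RSs (ww)

namespace RCen

variable {L : Type} [Field L] [Algebra ℂ L] {v : DV L} {n : ℕ} {π g : L} {y : Fin n → L}
  {O : ValuationSubring L} {R : Subalgebra ℂ L}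

theorem aeval_mem (hy : ∀ i, y i ∈ R) (P : MvPolynomial (Fin n) ℂ) :
    MvPolynomial.aeval y P ∈ R := by
  have : (MvPolynomial.aeval y).range ≤ R := by
    rw [← Algebra.adjoin_range_eq_range_aeval, Algebra.adjoin_le_iff]
    exact Set.range_subset_iff.2 hy
  exact this ⟨P, rfl⟩

theorem step (hO : ∀ a ∈ R, a ∈ O) (hu : ∀ a ∈ R, a ∈ v.F 1 → ¬Un O a) (hπ : π ∈ R)
    (hy : ∀ i, y i ∈ R) (p1 : 0 < v.v π) (hI : Indep v y)
    (hP : ∀ P : M3.Po n, P ≠ 0 → Un O (MvPolynomial.aeval y P)) (hg : g ∈ R) (g0 : g ≠ 0)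
    (g1 : v.v g = 0) (g2 : ¬Un O g) : ∀ (i : ℕ) (Q : L[X]),
      (∀ j, Q.coeff j ∈ Algebra.adjoin ℂ (Set.range (ww π y))) → Q.coeff i ∉ v.F 1 →
      Q.eval g ∉ v.F 1 := by
  have hB : Algebra.adjoin ℂ (Set.range (ww π y)) ≤ R := by
    refine Algebra.adjoin_le ?_
    rintro _ ⟨_ | i, rfl⟩
    exacts [hπ, hy i]
  have ev : ∀ Q : L[X], (∀ j, Q.coeff j ∈ Algebra.adjoin ℂ (Set.range (ww π y))) →
      Q.eval g ∈ R := fun Q h => by
    rw [eval_eq_sum_range]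
    exact sum_mem fun j _ => mul_mem (hB (h j)) (pow_mem hg j)
  have dv : ∀ Q : L[X], (∀ j, Q.coeff j ∈ Algebra.adjoin ℂ (Set.range (ww π y))) →
      ∀ j, Q.divX.coeff j ∈ Algebra.adjoin ℂ (Set.range (ww π y)) := fun Q h j => by
    rw [coeff_divX]; exact h _
  have z : ∀ Q : L[X], (∀ j, Q.coeff j ∈ Algebra.adjoin ℂ (Set.range (ww π y))) →
      Q.coeff 0 ∉ v.F 1 → Q.eval g ∉ v.F 1 := fun Q h h0 h1 => by
    obtain ⟨a, ha, c, hc, -, e⟩ := MP_ee8c61_ag.TC.RSs.dec (h 0)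
    have pF : π ∈ v.F 1 := Or.inr p1
    have cF := F_mul0' pF (MP_ee8c61_ag.TC.RSs.le0 p1 hI c hc)
    have a0 : a ≠ 0 := fun e' => h0 (by rw [e, e', zero_add]; exact cF)
    have ua : Un O a := by
      rw [Algebra.adjoin_range_eq_range_aeval] at ha
      obtain ⟨P, rfl⟩ := ha
      exact hP P fun e' => a0 (by simp [e'])
    have m1 := mul_mem hπ (hB hc)
    have u0 : Un O (Q.coeff 0) := e ▸ ua.add (hO _ m1) (hu _ m1 cF)
    have m2 := hO _ (ev _ (dv Q h))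
    have := u0.add (mul_mem m2 (hO _ hg)) (not_un_mul m2 (hO _ hg) g2)
    rw [mul_comm, eval_divX, add_sub_cancel] at this
    exact hu _ (ev Q h) h1 this
  intro i
  induction i with
  | zero => exact z
  | succ i ih =>
    intro Q h h0 h1
    by_cases h2 : Q.coeff 0 ∈ v.F 1
    · refine ih Q.divX (dv Q h) (by rwa [coeff_divX]) ?_
      have := F_mul0' (sub_mem h1 h2) (Or.inr (by rw [v.inv, g1]; rfl) : g⁻¹ ∈ v.F 0)
      rwa [← eval_divX, mul_comm g, mul_inv_cancel_right₀ g0] at this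
    · exact z Q h h2 h1

theorem claim (ht : Algebra.trdeg ℂ L ≤ Cardinal.mk (Option (Fin n))) (hO : ∀ a ∈ R, a ∈ O)
    (hv : ∀ a ∈ R, a ∈ v.F 0) (hu : ∀ a ∈ R, Un O a → v.v a = 0) (hπ : π ∈ R)
    (hy : ∀ i, y i ∈ R) (p0 : π ≠ 0) (p1 : 0 < v.v π)
    (hP : ∀ P : M3.Po n, P ≠ 0 → Un O (MvPolynomial.aeval y P)) (hg : g ∈ R) (g2 : ¬Un O g) :
    g ∈ v.F 1 := by
  by_contra hn
  have g0 : g ≠ 0 := fun e => hn (Or.inl e)
  have g1 : v.v g = 0 := by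
    have := (hv g hg).resolve_left g0
    have h8 : ¬1 ≤ v.v g := fun h => hn (Or.inr h)
    omega
  have hI : Indep v y := fun P h => ⟨(hP P h).1, hu _ (aeval_mem hy P) (hP P h)⟩
  have h1 := ((MP_ee8c61_ag.TC.RSs.indep p0 p1 hI).isTranscendenceBasis_of_trdeg_le_of_finite
    ht).isAlgebraic
  obtain ⟨q, h2, h3⟩ := h1.isAlgebraic g
  obtain ⟨i0, h4⟩ : ∃ i, q.coeff i ≠ 0 := ⟨_, leadingCoeff_ne_zero.2 h2⟩
  obtain ⟨Q, h5, ⟨i, h6⟩, h7⟩ := MP_ee8c61_ag.TC.RSs.red p0 p1 hI (z := g) i0 _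
    (q.map (algebraMap _ L)) (fun i => by rw [coeff_map]; exact (q.coeff i).2)
    (by rw [coeff_map]; exact fun e => h4 (Subtype.ext e)) (Int.self_le_toNat _)
    (by rw [eval_map_algebraMap, h3])
  refine step hO (fun a ha h1 h2 => ?_) hπ hy p1 hI hP hg g0 g1 g2 i Q h5 h6 (Or.inl h7)
  have := h1.resolve_left h2.1
  rw [hu a ha h2] at this
  omega

end RCen

variable [Base]

theorem rCen : OfCen := fun E n f M O b y hM hb hf hy hP => by
  have B := (E.bas _ f M hM).toBas1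
  obtain ⟨o, ho⟩ : ∃ o, M.Thru O o := by
    by_contra hn
    obtain ⟨U, ⟨u1, u2⟩, e⟩ := hM.ord b
    refine hf (e ▸ Un.mul ⟨U.ne_zero, hb _ u1, ?_⟩ (B.un_of b O _ hb fun j hj => ?_))
    · rw [← Units.val_inv_eq_inv_val]; exact hb _ u2
    · exact absurd ⟨j, hj⟩ hn
  obtain ⟨i1, i2, -, i3⟩ := B.in_v b O o hb ho
  have η0 : M.η b o ≠ 0 := Units.ne_zero _
  have η1 := (hM.dv b o i2).2.1
  have hv : ∀ a ∈ LA (M.S.A b) O, a ∈ (M.v o).O := fun a ha =>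
    Lc.mem ha i1 fun s h1 h2 => (DV.un_O _).2 ⟨h2.1, i3 s h1 h2⟩
  have cl : ∀ g ∈ M.S.A b, ¬Un O g → g ∈ (M.v o).F 1 := fun g hg g2 => by
    refine RCen.claim (R := LA (M.S.A b) O) ?_ (fun a ha => Lc.mem' ha hb) hv
      (fun a ha h => ((DV.un_O _).1 ⟨h.1, hv _ ha, hv _ (Lc.inv ha h)⟩).2)
      (le_LA (B.η_mem b o)) hy η0 (by rw [η1]; exact one_pos) hP (le_LA hg) g2
    have : Algebra.IsAlgebraic (M3.Po (n + 1)) (KK (n + 1)) :=
      IsLocalization.isAlgebraic _ (nonZeroDivisors _)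
    rw [← trdeg_add_eq ℂ (M3.Po (n + 1)), trdeg_eq_zero (R := M3.Po (n + 1)),
      MvPolynomial.trdeg_of_isDomain]
    simp
  have le : ∀ g ∈ (M.v o).O, g ∈ O := fun g hg =>
    (B.frac b o i1 g hg).mem hb fun s h1 h2 => by_contra fun h3 => by
      have := (cl s h1 h3).resolve_left h2.1
      rw [((DV.un_O _).1 h2).2] at this
      omega
  refine ⟨o, le_antisymm le fun g hg => by_contra fun hn => ?_⟩
  have g0 : g ≠ 0 := fun e => hn (Or.inl e)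
  have g1 : ¬0 ≤ (M.v o).v g := fun h => hn (Or.inr h)
  have : (M.η b o)⁻¹ * g⁻¹ ∈ (M.v o).O := Or.inr (by
    rw [(M.v o).mul _ _ (inv_ne_zero η0) (inv_ne_zero g0), DV.inv, DV.inv, η1]; omega)
  have := mul_mem (le _ this) hg
  rw [inv_mul_cancel_right₀ g0] at this
  exact ho b hb ⟨η0, hb _ (B.η_mem b o), this⟩

end Pool.Agent.MP_ee8c61_ag.N3.TC
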