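import Pool.Agent.MP_ee8c61_ag.TW.Spec

/-! The residue of a logarithmic form is a section on the divisor. -/

namespace Pool.Agent.MP_ee8c61_ag.N3.TC

open H59 hiding pd
open MvPolynomial M3 M3E
open Pool.Agent.MP_ee8c61_ag.TC (Indep red SSs SPert)

noncomputable section

namespace RCht

variable {N : ℕ}

open Classical in
/-- The coordinates that define divisors in the support of `P`. -/
def TT (M : Mod N) (b : M.ι) (P : M.J → ℤ) : Finset (Fin N) :=
  Finset.univ.filter fun k => ∃ j, M.S.lab b j = some k ∧ 0 < P j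

theorem prod_TT (M : Mod N) (b : M.ι) (P : M.J → ℤ) :
    ∏ k ∈ TT M b P, M.S.z b k = M.mon b (red P) := by
  classical
  rw [M.mon_eq, ← Finset.prod_filter_of_ne (s := Finset.univ)
    (p := fun j => (M.S.lab b j).isSome ∧ 0 < P j) fun j _ hn => ⟨Option.isSome_iff_ne_none.2
      fun e => hn (by simp [Mod.η, M.S.η_none b j e]), by_contra fun e => hn (by simp [red, e])⟩]
  refine (Finset.prod_bij (fun j hj => (M.S.lab b j).get (Finset.mem_filter.1 hj).2.1)
    (fun j hj => ?_) (fun j hj j' hj' e => ?_) (fun l hl => ?_) fun j hj => ?_).symm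
  · exact Finset.mem_filter.2 ⟨Finset.mem_univ _, j, (Option.some_get _).symm,
      (Finset.mem_filter.1 hj).2.2⟩
  · exact M.S.lab_inj b j j' _ (Option.some_get _).symm
      ((Option.some_get _).symm.trans (congrArg some e.symm))
  · obtain ⟨j, e, hj⟩ := (Finset.mem_filter.1 hl).2
    exact ⟨j, Finset.mem_filter.2 ⟨Finset.mem_univ _, by simp [e], hj⟩, by simp [e]⟩
  · have e := (Option.some_get (Finset.mem_filter.1 hj).2.1).symm
    rw [red, if_pos (Finset.mem_filter.1 hj).2.2, zpow_one]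
    exact M.S.η_some b j _ e

theorem mem_one {K : Type} [Field K] (d : DV K) {g : K} (h : d.O.valuation g < 1) :
    g ∈ d.F 1 := by
  have h1 : g ∈ d.O := (d.O.valuation_le_one_iff g).1 h.le
  have h2 := (not_un_iff h1).2 h
  rw [d.un_O] at h2
  by_cases h0 : g = 0
  · exact Or.inl h0
  · have := (d.mem_F.1 (d.mem_O.1 h1)).resolve_left h0
    exact Or.inr (by_contra fun e => h2 ⟨h0, by omega⟩)

theorem le_red {J : Type} [Fintype J] {P : J → ℤ} (hP : 0 ≤ P) :
    0 ≤ (∑ j, (P j).toNat) • red P - P := fun j => by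
  have h1 : (P j).toNat ≤ ∑ j, (P j).toNat :=
    Finset.single_le_sum (f := fun j => (P j).toNat) (fun _ _ => Nat.zero_le _) (Finset.mem_univ j)
  have h2 : 0 ≤ P j := hP j
  generalize ∑ j, (P j).toNat = e at h1
  change 0 ≤ e • (if 0 < P j then (1 : ℤ) else 0) - P j
  rw [nsmul_eq_mul]
  split_ifs <;> omega

variable [Base] {f : Po N} {M : Mod N}

/-- A chart of the model that meets the divisor. -/
def ch (h : M.OK f) {b : M.ι} {o : M.J} {l : Fin N} (hl : M.S.lab b o = some l)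
    (hη : (M.η b o)⁻¹ ∉ M.S.A b) : TW.Chart (M.v o).O where
  A := M.S.A b
  z i := ⟨M.S.z b i, M.S.z_mem b i⟩
  D := M.S.D b
  l := l
  etale := h.et b
  dual := M.S.D_z b
  le := (h.dv b o hη).1
  centre g := by
    obtain ⟨h1, h2, h3⟩ := h.dv b o hη
    have e : M.η b o = M.S.z b l := M.S.η_some b o l hl
    refine ⟨fun hg => ⟨⟨_, h3 g g.2 (mem_one _ hg)⟩, Subtype.ext ?_⟩, ?_⟩
    · change (g : KK N) = M.S.z b l * (g * (M.η b o)⁻¹)
      rw [← e, mul_comm, inv_mul_cancel_right₀ (M.η_ne b o)]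
    · rintro ⟨g', rfl⟩
      refine (not_un_iff (h1 _ (Subtype.prop _))).1 ?_
      change ¬Un _ (M.S.z b l * g')
      rw [mul_comm]
      refine not_un_mul (h1 _ g'.2) (h1 _ (M.S.z_mem b l)) fun hu => ?_
      have := ((M.v o).un_O.1 hu).2
      rw [← e] at this
      omega

theorem key {r q : ℕ} {F : Fin r → M3.Po N} {j : Fin r} {o : M.J} {P : M.J → ℤ}
    {u : Fin q → KK N} {m c : ℕ} {t : KK N} (h : M.OK f) (B : Bas1 M) (Nb : Nb M)
    (hF : ∀ i, M3.ip N (F i) / M3.ip N (F j) ∈ Rb N) (hP : 0 ≤ P) (ho : P o = 0)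
    (hu : ∀ i, u i ∈ M.H P) (hL : TW.LogRes F j (M.v o).O u m c t) {b : M.ι}
    (hb : M.In b (M.v o).O) : ∃ U g : KK N, (∀ V, M.In b V → Un V U) ∧ g ∈ M.S.A b ∧
      Un (M.v o).O g ∧
      t / M3.ip N (F j) ^ c * M.mon b (m • (M.kk + M.e o + red P)) * U - g ∈ (M.v o).F 1 := by
  obtain ⟨-, hη, ⟨l, hl⟩, -⟩ := B.in_v b _ o hb ((B.thru_v o o).2 rfl)
  obtain ⟨U, hU, hd⟩ := h.det b
  have hT : ∏ k ∈ TT M b P, ((ch h hl hη).z k : KK N) = M.mon b (red P) := prod_TT M b P
  obtain ⟨g, hg, h1, h2⟩ := hL (ch h hl hη) (TT M b P)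
    (fun e => by
      obtain ⟨i, e1, e2⟩ := (Finset.mem_filter.1 e).2
      rw [M.S.lab_inj b i o l e1 hl] at e2
      omega)
    (h.pol0 b) (fun i => h.pol b ⟨_, hF i⟩) fun i => ⟨∑ j, (P j).toNat, by
      have := mul_mem ((Nb.H P (u i)).1 (hu i) b) (B.mon_mem b _ (le_red hP))
      rw [mul_assoc, ← B.mon_add, add_sub_cancel, B.mon_nsmul] at this
      rw [hT]
      exact this⟩
  refine ⟨(U : KK N) ^ m, g, fun V hV => Un.pow ⟨U.ne_zero, hV _ hU.1, ?_⟩ m, hg,
    un_iff.2 h1, ?_⟩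
  · rw [← Units.val_inv_eq_inv_val]
    exact hV _ hU.2
  · have e1 : (ch h hl hη).jac = U * M.mon b M.kk := by
      rw [← hd, h.r]
      rfl
    have e2 : ((ch h hl hη).z (ch h hl hη).l : KK N) = M.mon b (M.e o) := by
      have := B.mon_e b o 1
      rw [one_smul, zpow_one] at this
      rw [this]
      exact (M.S.η_some b o l hl).symm
    have := mem_one _ h2
    rw [hT, e1, e2] at this
    rw [B.mon_nsmul, B.mon_add, B.mon_add]
    have e3 : t / M3.ip N (F j) ^ c * (M.mon b M.kk * M.mon b (M.e o) * M.mon b (red P)) ^ m *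
        (U : KK N) ^ m = t * (U * M.mon b M.kk * M.mon b (M.e o) * M.mon b (red P)) ^ m /
          TW.rf (F j) ^ c := by
      change _ = _ / M3.ip N (F j) ^ c
      ring
    rw [e3]
    exact this

end RCht

variable [Base]

theorem rCht : OfCht := fun E N r q F j M o P u m c t h hF hP ho hu hL => by
  have B := (E.bas N _ M h).toBas1
  have K := fun b => RCht.key h B (E.nb N _ M h) hF hP ho hu hL (b := b)
  refine ⟨fun V _ hV b hb => ?_, ?_⟩
  · obtain ⟨U, g, h1, h2, -, h4⟩ := K b fun g hg => hV (hb g hg)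
    have := add_mem (B.small V o hV _ h4).1 (hb g h2)
    rw [sub_add_cancel] at this
    exact (h1 V hb).mem_iff.1 this
  · obtain ⟨b, hb⟩ := h.cov _ (B.ov_v o)
    obtain ⟨U, g, h1, -, h3, h4⟩ := K b hb
    obtain ⟨g0, g1⟩ := (M.v o).un_O.1 h3
    obtain ⟨a0, a1⟩ := (M.v o).un_O.1
      (((M.v o).un_O.2 ((M.v o).eq_of_sub g0 g1 (by rwa [zero_add]))).cancel (h1 _ hb))
    have s0 := left_ne_zero_of_mul a0
    rw [(M.v o).mul _ _ s0 (M.mon_ne b _), B.v_mon b o _ hb] at a1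
    refine ⟨fun e => s0 (by rw [e, zero_div]), ?_⟩
    simp only [Pi.smul_apply, Pi.add_apply, Mod.kk, M.e_apply, red, ho, if_true, lt_self_iff_false,
      if_false, add_zero, nsmul_eq_mul] at a1
    omega

end

end Pool.Agent.MP_ee8c61_ag.N3.TC
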