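import Pool.Agent.MP_ee8c61_ag.TW.Spec

/-! Pluricanonical sections lift from a divisor. -/

namespace Pool.Agent.MP_ee8c61_ag.N3.TC

open Pool.Agent.MP_ee8c61_ag.TC (Indep red SSs SPert)

set_option linter.unusedSectionVars false

variable [Base]

open M3 N3.M3E

namespace RLift

variable {N : ℕ} {f : Po N} {M : N3.Mod N}

theorem up_neg (A : M.J → ℚ) : M.up (-(M.q (M.up A) - A)) = 0 := funext fun j => by
  show ⌈-(((⌈A j⌉ : ℤ) : ℚ) - A j)⌉ = 0
  rw [Int.ceil_eq_zero_iff]
  exact ⟨by linarith [Int.ceil_lt_add_one (A j)], by linarith [Int.le_ceil (A j)]⟩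

theorem lt_one (A : M.J → ℚ) (j : M.J) : (M.q (M.up A) - A) j < 1 := by
  show ((⌈A j⌉ : ℤ) : ℚ) - A j < 1
  linarith [Int.ceil_lt_add_one (A j)]

theorem at_o (A : M.J → ℚ) (o : M.J) (h : A o = 0) : (M.q (M.up A) - A) o = 0 := by
  show ((⌈A o⌉ : ℤ) : ℚ) - A o = 0
  simp [h]

/-- One step of the induction. -/
theorem step (hM : M.OK f) (hL : SL) (o : M.J) (A : M.J → ℚ) (hA : M.AmpQ A) (hAo : A o = 0)
    (c X : M.J → ℤ) (U : Finset (KK N)) (τ : KK N) (hτ : τ ∈ M.R o c) (hU : M.Bpf o X U)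
    (h : ∀ u ∈ U, M.Lf o (c + X) (τ * u)) :
    ∀ u ∈ M.R o (X + (M.kk + M.e o + M.up A)),
      M.Lf o (c + (X + (M.kk + M.e o + M.up A))) (τ * u) := by
  intro u hu
  have key := hL N f M hM o (c + (X + (M.kk + M.e o + M.up A))) (c + X) c 0 A
    (M.q (M.up A) - A) 1 1 τ U rfl hA (at_o A o hAo) zero_le_one one_pos (by simp)
    (fun j => by simpa using lt_one A j)
    (funext fun j => by
      simp only [Mod.q_apply, Pi.add_apply, Pi.sub_apply, Pi.smul_apply, smul_eq_mul]
      push_cast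
      ring)
    hτ (by rwa [one_smul, sub_zero, add_sub_cancel_left])
    (fun v hv => by rw [pow_one]; exact h v hv) u (by rwa [add_sub_cancel_left])
  rwa [up_neg, add_zero] at key

end RLift

theorem rLift : OfLift := by
  intro E N f M hM o A m hA hAo hm σ hσ
  have hB := E.bas N f M hM
  have hq := E.aq N f M hM
  obtain ⟨w, hw⟩ := hM.amp
  set L : M.J → ℤ := M.kk + M.e o + M.up A with hLd
  have hev : ∀ᶠ k : ℕ in Filter.atTop, ∀ p ∈ Finset.range (m + 1), M.Amp (k • w + p • L) :=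
    (Filter.eventually_all_finset _).2 fun p _ =>
      Filter.eventually_atTop.2 (E.a1 N f M hM w _ hw)
  obtain ⟨r, hr⟩ := hev.exists
  have h0 := hr 0 (Finset.mem_range.2 (by omega))
  rw [zero_smul, add_zero] at h0
  obtain ⟨T, hT⟩ := hB.amp_free _ h0
  have hU := hB.gens_bpf o _ T hT
  have hpow : ∀ k : ℕ, σ ^ k ∈ M.R o (k • m • L) := fun k V h1 h2 =>
    hB.oc_pow V _ σ k (hσ V h1 h2)
  have inner : ∀ k : ℕ, (∀ u ∈ T, M.Lf o (k • m • L + r • w) (σ ^ k * u)) → ∀ p, p < m →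
      ∀ u ∈ M.R o (r • w + (p + 1) • L),
        M.Lf o (k • m • L + (r • w + (p + 1) • L)) (σ ^ k * u) := by
    intro k hk p
    induction p with
    | zero =>
      intro _
      have := RLift.step hM E.l o A hA hAo _ _ T _ (hpow k) hU hk
      rwa [zero_add, one_smul]
    | succ p ih =>
      intro hp
      obtain ⟨T', hT'⟩ := hB.amp_free _ (hr (p + 1) (Finset.mem_range.2 (by omega)))
      have hU' := hB.gens_bpf o _ T' hT'
      have := RLift.step hM E.l o A hA hAo _ _ T' _ (hpow k) hU'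
        fun u hu => ih (by omega) u (hU'.1 u hu)
      rwa [← hLd, add_assoc, ← succ_nsmul] at this
  have outer : ∀ k : ℕ, ∀ u ∈ T, M.Lf o (k • m • L + r • w) (σ ^ k * u) := by
    intro k
    induction k with
    | zero =>
      intro u hu
      rw [zero_smul, zero_add, pow_zero, one_mul]
      exact ⟨u, hT.1 u hu, by rw [sub_self]; exact zero_mem _⟩
    | succ k ih =>
      intro u hu
      have h1 := inner k ih (m - 1) (by omega) (σ * u) (by
        rw [Nat.sub_add_cancel hm, add_comm]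
        exact fun V a c => hB.oc_mul V _ _ σ u (hσ V a c) (hU.1 u hu V a c))
      rw [Nat.sub_add_cancel hm] at h1
      rw [succ_nsmul, add_assoc, add_comm (m • L), pow_succ, mul_assoc]
      exact h1
  obtain ⟨ε, hε, hop⟩ := hq.opn A (-M.q (r • w)) hA
  obtain ⟨k, hk⟩ := exists_nat_gt ε⁻¹
  have hk0 : (0 : ℚ) < k := (inv_pos.2 hε).trans hk
  have hm0 : (0 : ℚ) < m := by exact_mod_cast hm
  have hm1 : (1 : ℚ) ≤ m := by exact_mod_cast hm
  have ht0 : (0 : ℚ) ≤ (m - 1) / (k * m) := div_nonneg (by linarith) (mul_pos hk0 hm0).le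
  have ht1 : ((m : ℚ) - 1) / (k * m) * k ≤ 1 := by
    rw [div_mul_eq_mul_div, div_le_one (mul_pos hk0 hm0)]
    nlinarith
  have ht2 : ((m : ℚ) - 1) / (k * m) ≤ ε := by
    have h1 : 1 < ε * k := by rwa [inv_lt_iff_one_lt_mul₀' hε] at hk
    exact le_of_mul_le_mul_right (ht1.trans h1.le) hk0
  have key := E.l N f M hM o (m • L) (k • m • L + r • w) (m • L) 0 _ (M.q (M.up A) - A)
    ((m - 1) / (k * m)) k σ T rfl (hop _ ht0 ht2) (RLift.at_o A o hAo) ht0
    (by exact_mod_cast hk0) ht1 (fun j => by simpa using RLift.lt_one A j)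
    (funext fun j => by
      simp only [hLd, Mod.q_apply, Pi.add_apply, Pi.sub_apply, Pi.neg_apply, Pi.smul_apply,
        smul_eq_mul, nsmul_eq_mul, Pi.mul_apply, Pi.natCast_apply]
      push_cast
      field_simp
      ring)
    hσ (by rwa [sub_zero, add_sub_cancel_left]) (outer k) 1
    (fun V _ _ b _ => by rw [sub_self, hB.mon_zero, one_mul]; exact one_mem _)
  rwa [RLift.up_neg, add_zero, mul_one] at key

end Pool.Agent.MP_ee8c61_ag.N3.TC
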