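import Pool.Agent.MP_ee8c61_ag.TW.Spec
import Pool.Agent.MP_ee8c61_ag.TC.RInd

/-! The theorem from the rows. -/

namespace Pool.Agent.MP_ee8c61_ag.N3.TC

open MvPolynomial M3
open Pool.Agent.MP_ee8c61_ag.TC (Indep red)
open Pool.Agent.MP_ee8c61_ag.TC.RInd

theorem rMain : OfMain := by
  intro hB hE hR hC hA N r q f b j O u m c t hb hD hO hF h0 hf hu hm ht H
  have nu : ¬Un O (M3.ip N (f j)) := (not_un_iff (hO _)).2 hf
  cases N with
  | zero =>
    obtain ⟨a, ha⟩ := C_surjective (Fin 0) (f j)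
    have a0 : a ≠ 0 := fun e => h0 (by rw [← ha, e, map_zero])
    refine absurd ⟨M3B1.ip_ne h0, hO _, ?_⟩ nu
    have e : (M3.ip 0 (f j))⁻¹ = M3.ip 0 (C a⁻¹) := inv_eq_of_mul_eq_one_right (by
      rw [← ha, ← map_mul, ← map_mul, mul_inv_cancel₀ a0, map_one, map_one])
    exact e ▸ hO _
  | succ n =>
  obtain ⟨B, gd, ov, β, Q, bs⟩ := hB _ r f j b hb h0
  have ut : ∀ l, Un O (t l) := fun l => un_iff.2 (by
    simpa using ht 1 (X l) (X_ne_zero l) (isHomogeneous_X ℂ l))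
  have ind : ∀ P : M3.Po n, P ≠ 0 → Un O (aeval (fun i : Fin n => t i.succ / t 0) P) :=
    fun P hP => by
      have h1 := un_iff.2 (ht _ _ (hom_ne hP) (hom_isHom _ P))
      rw [aeval_hom P (t 0) (fun i => t i.succ / t 0) t rfl
        fun i => (mul_div_cancel₀ _ (ut 0).1).symm, mul_comm] at h1
      exact h1.cancel ((ut 0).pow _)
  obtain ⟨M, o, P, ok, e, fr, p0, po, hP⟩ := hR B n q (pp _ (f j)) O u _ gd hD
    ((ov O).2 ⟨hO, hF⟩) nu (fun i => ⟨(hu i).1, let ⟨e, p, h⟩ := (hu i).2; ⟨e, pp _ p, h⟩⟩) ind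
  subst e
  have key := fun l => hC B _ r q f j M o P u m c (t l) ok
    (fun i => mem_Rb.2 fun V hV => ((ov V).1 hV).2 i) p0 po hP (H l)
  have Bs := (hE B).bas _ _ M ok
  have f0 : M3.ip (n + 1) (f j) ≠ 0 := M3B1.ip_ne h0
  have vf : (M.v o).v (M3.ip (n + 1) (f j)) = M.a o :=
    ((Bs.gen_v o _ _).1 (Bs.gen_f _)).2.trans (neg_neg _)
  have h1 := (key 0).2.2
  rw [DV.div _ (ut 0).1 (pow_ne_zero _ f0), DV.pow, vf, ((M.v o).un_O.1 (ut 0)).2] at h1
  have hm0 : (m : ℚ) ≠ 0 := Nat.cast_ne_zero.2 hm.ne'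
  have h2 : (c : ℚ) * M.a o = m * (M.k o + 1) := by
    exact_mod_cast (by linarith : (c : ℤ) * M.a o = m * (M.k o + 1))
  have := hA B n (pp _ (f j)) (c / m) b β Q M o P m _
    (fun i => t i.succ / M3.ip _ (f j) ^ c) bs ok (by
      show (M.k o : ℚ) + 1 - c / m * M.a o = 0
      rw [div_mul_eq_mul_div, h2, mul_div_cancel_left₀ _ hm0, sub_self]) fr p0 po hm (key 0).1
    (div_ne_zero (ut 0).1 (pow_ne_zero _ f0)) (key 0).2.2 (fun i => (key i.succ).1)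
    fun P hP => by
      simp only [div_div_div_cancel_right₀ (pow_ne_zero c f0)]
      exact (M.v o).un_O.1 (ind P hP)
  simpa using this

end Pool.Agent.MP_ee8c61_ag.N3.TC
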