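import Pool.Agent.MP_ee8c61_ag.TW.Spec

/-! The lemma of Kodaira. -/

namespace Pool.Agent.MP_ee8c61_ag.N3.TC

open Pool.Agent.MP_ee8c61_ag.TC (Indep red SSs SPert)

set_option linter.unusedSectionVars false

variable [Base]

open MvPolynomial M3 N3.M3E

namespace RNk

/-- A function of value zero in the charts through the divisor is cleared by a function of the
chart. -/
theorem clear {N : ℕ} (M : N3.Mod N) (o : M.J) (b : M.ι) (z : KK N) (hz : z ≠ 0)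
    (h : M.In b (M.v o).O → (M.v o).v z = 0) :
    ∃ a ∈ M.S.A b, a ≠ 0 ∧ z / a ∈ (M.v o).F 0 := by
  by_cases hb : M.In b (M.v o).O
  · exact ⟨1, one_mem _, one_ne_zero, Or.inr (by rw [div_one, h hb])⟩
  · obtain ⟨a, ha⟩ := not_forall.1 hb
    obtain ⟨ha1, ha2⟩ := Classical.not_imp.1 ha
    have h0 : a ≠ 0 := fun e => ha2 (Or.inl e)
    have h1 : (M.v o).v a < 0 := not_le.1 fun e => ha2 (Or.inr e)
    refine ⟨a ^ ((M.v o).v z).natAbs, pow_mem ha1 _, pow_ne_zero _ h0, Or.inr ?_⟩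
    rw [(M.v o).div hz (pow_ne_zero _ h0), (M.v o).pow]
    have h2 : -(M.v o).v z ≤ (((M.v o).v z).natAbs : ℤ) := by omega
    have h3 : (0 : ℤ) ≤ (((M.v o).v z).natAbs : ℤ) := Int.natCast_nonneg _
    nlinarith

end RNk

theorem rNk : OfNk := by
  intro E hS n f M o c u g₀ g hM hg₀ h0 hv hg hI
  classical
  have B := E.bas _ f M hM
  have Nn := E.nb _ f M hM
  obtain ⟨b0, hb0⟩ := hM.ne o
  obtain ⟨-, hη, -⟩ := hM.dv b0 o hb0
  obtain ⟨y0, hy0, vy0⟩ : ∃ y0 : KK (n + 1), y0 ≠ 0 ∧ (M.v o).v y0 = -u o :=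
    ⟨M.η b0 o ^ (-u o), zpow_ne_zero _ (M.η_ne b0 o), by rw [(M.v o).zpow, hη, mul_one]⟩
  obtain ⟨hf0, hf1⟩ := (B.gen_v o _ _).1 (B.gen_f (M.v o).O)
  have hf2 : 0 < (M.v o).v (ip _ f) := by
    rw [hf1]
    have := hM.pos o
    simp only [Pi.neg_apply, neg_neg, N3.Mod.aa]
    exact_mod_cast this
  have key : ∀ b, ∃ s : KK (n + 1), s ≠ 0 ∧ (M.v o).v s = 0 ∧ ∀ V : Vl (n + 1),
      (∀ c : ℂ, algebraMap ℂ _ c ∈ V) → ip _ f ∈ V → (∀ i, g i / g₀ ∈ V) →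
      s ∈ V ∧ (M.In b V → s * (y0 * M.mon b u) ∈ V) := by
    intro b
    obtain ⟨a, ha, ha0, haz⟩ := RNk.clear M o b (y0 * M.mon b u) (mul_ne_zero hy0 (M.mon_ne b u))
      fun hb => by rw [(M.v o).mul _ _ hy0 (M.mon_ne b u), vy0, B.v_mon b o u hb]; ring
    obtain ⟨s, hs0, hs1, hs⟩ := hS n (M.v o) (ip _ f) (fun i => g i / g₀) hf0 hf2 hI _ haz
    refine ⟨s, hs0, hs1, fun V h1 h2 h3 => ⟨(hs V h1 h2 h3).1, fun hb => ?_⟩⟩
    have := mul_mem (hs V h1 h2 h3).2 (hb a ha)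
    rwa [mul_assoc, div_mul_cancel₀ _ ha0] at this
  choose s hs0 hs1 hs using key
  have ht : ∀ b, g₀ * M.mon b c ∈ M.S.A b := (Nn.H c g₀).1 hg₀
  have aw : ∀ b, ∃ e : ℕ, (g₀ * M.mon b c) ^ e * (y0 * (∏ b', s b') * M.mon b u) ∈ M.S.A b := by
    intro b
    refine Nn.aw b _ (ht b) (mul_ne_zero h0 (M.mon_ne b c)) _ fun V hb hti => ?_
    have h1 : ∀ c : ℂ, algebraMap ℂ (KK (n + 1)) c ∈ V := fun c =>
      hb _ ((M.S.A b).algebraMap_mem c)
    have h2 : ip _ f ∈ V := hb _ (hM.pol b f)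
    have h3 : ∀ i, g i / g₀ ∈ V := fun i => by
      have := mul_mem (hb _ ((Nn.H c (g i)).1 (hg i) b)) hti
      rwa [← div_eq_mul_inv, mul_div_mul_right _ _ (M.mon_ne b c)] at this
    have h4 : ∏ b' ∈ Finset.univ.erase b, s b' ∈ V :=
      prod_mem fun b' _ => (hs b' V h1 h2 h3).1
    have := mul_mem ((hs b V h1 h2 h3).2 hb) h4
    rwa [show s b * (y0 * M.mon b u) * ∏ b' ∈ Finset.univ.erase b, s b' =
      y0 * (s b * ∏ b' ∈ Finset.univ.erase b, s b') * M.mon b u by ring,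
      Finset.mul_prod_erase _ _ (Finset.mem_univ b)] at this
  choose e he using aw
  have hp0 : ∏ b', s b' ≠ 0 := Finset.prod_ne_zero_iff.2 fun b _ => hs0 b
  refine ⟨1 + ∑ b, e b, g₀ ^ (1 + ∑ b, e b) * (y0 * ∏ b', s b'), by omega,
    (Nn.H _ _).2 fun b => ?_, fun h => ?_⟩
  · have hle : e b ≤ 1 + ∑ b, e b :=
      (Finset.single_le_sum (fun i _ => Nat.zero_le (e i)) (Finset.mem_univ b)).trans
        (Nat.le_add_left _ _)
    obtain ⟨k, hk⟩ := Nat.exists_eq_add_of_le hle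
    have := mul_mem (pow_mem (ht b) k) (he b)
    rw [B.mon_add, B.mon_nsmul, hk]
    rwa [show (g₀ * M.mon b c) ^ k * ((g₀ * M.mon b c) ^ e b *
      (y0 * (∏ b', s b') * M.mon b u)) = g₀ ^ (e b + k) * (y0 * ∏ b', s b') *
        (M.mon b c ^ (e b + k) * M.mon b u) by ring] at this
  · have h1 := h.resolve_left (mul_ne_zero (pow_ne_zero _ h0) (mul_ne_zero hy0 hp0))
    rw [(M.v o).mul _ _ (pow_ne_zero _ h0) (mul_ne_zero hy0 hp0), (M.v o).pow,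
      (M.v o).mul _ _ hy0 hp0, (M.v o).prod _ fun b _ => hs0 b, hv, vy0,
      Finset.sum_eq_zero fun b _ => hs1 b] at h1
    rw [Pi.add_apply, Pi.smul_apply, nsmul_eq_mul] at h1
    linarith

end Pool.Agent.MP_ee8c61_ag.N3.TC
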