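import Pool.Agent.MP_ee8c61_ag.TW.Spec

/-! A model on which a given valuation is a divisor. -/

namespace Pool.Agent.MP_ee8c61_ag.N3.TC

open H59 hiding pd
open MvPolynomial M3 M3E

noncomputable section

namespace RReal

theorem exr {K : Type} [Field K] (O : ValuationSubring K) (hO : IsDiscreteValuationRing O)
    {F p : K} (hF : F ∈ O) (h0 : F ≠ 0) (hu : ¬Un O F) (hp : p ∈ O) (p0 : p ≠ 0) :
    ∃ r : ℕ, p / F ^ r ∉ O := by
  have h1 : ¬IsUnit (⟨F, hF⟩ : O) := fun h => hu (un_iff.2 ((O.valuation_eq_one_iff _).1 h))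
  have h2 : (⟨p, hp⟩ : O) ≠ 0 := fun h => p0 (congrArg Subtype.val h)
  obtain ⟨r, hr⟩ := FiniteMultiplicity.of_not_isUnit h1 h2
  refine ⟨r + 1, fun h => hr ⟨⟨_, h⟩, Subtype.ext ?_⟩⟩
  have : F ^ (r + 1) ≠ 0 := pow_ne_zero _ h0
  simp only [MulMemClass.coe_mul, SubmonoidClass.coe_pow]
  field_simp

theorem den {N n : ℕ} (y : Fin n → KK N) : ∃ (p₀ : M3.Po N) (p : Fin n → M3.Po N), p₀ ≠ 0 ∧
    ∀ i, M3.ip N (p i) = M3.ip N p₀ * y i := by
  obtain ⟨b, hb⟩ := IsLocalization.exist_integer_multiples_of_finite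
    (nonZeroDivisors (M3.Po N)) y
  choose p hp using hb
  exact ⟨b, p, nonZeroDivisors.ne_zero b.2, fun i => (hp i).trans (Algebra.smul_def _ _)⟩

variable [Base]

theorem memH {N : ℕ} {f : Po N} {M : Mod N} (B : Bas f M) (p : Po N) : ip N p ∈ M.H 0 :=
  fun V hV b _ => by rw [B.mon_zero, mul_one]; exact hV p

theorem genF {N : ℕ} {f : Po N} {M : Mod N} (B : Bas f M) (V : Vl N) (e : ℕ) :
    M.Gen V ((e : ℤ) • M.aa) (ip N f ^ e)⁻¹ := by
  have := B.gen_inv V _ _ (B.gen_pow V _ _ e (B.gen_f V))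
  rwa [smul_neg, neg_neg, ← natCast_zsmul] at this

end RReal

variable [Base]

open RReal in
theorem rReal : OfReal := by
  classical
  intro E hB hC n q f O u y hf hO hOv hu hup hy
  have F0 : ip _ f ≠ 0 := fun h => hf.1 (Subtype.ext h)
  obtain ⟨p₀, p, p0, hp⟩ := den y
  have q0 : M3.ip _ p₀ ≠ 0 := fun h => p0 (IsFractionRing.injective _ (KK (n + 1))
    (h.trans (map_zero _).symm))
  obtain ⟨r, hr⟩ := exr O hO (hOv f) F0 hu (hOv.pol p₀) q0
  obtain ⟨M, hM, -⟩ := hB _ f {f} hf ⟨1, by simp⟩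
  choose hu1 e' p' hp' using hup
  obtain ⟨e, he⟩ : ∃ e : ℕ, ∀ i, e' i ≤ e :=
    ⟨Finset.univ.sup e', fun i => Finset.le_sup (Finset.mem_univ i)⟩
  have B := E.bas _ f M hM
  let T1 : Finset (KK (n + 1)) := insert (ip _ f ^ r) (insert (M3.ip _ p₀)
    (Finset.univ.image fun i => M3.ip _ p₀ * y i))
  let T2 : Finset (KK (n + 1)) := insert (ip _ f ^ e) (Finset.univ.image fun i => u i * ip _ f ^ e)
  obtain ⟨W, hW, -, hT⟩ := E.b1 _ f M hM Bool (fun b => cond b T1 T2) (by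
    rintro (_ | _) <;> refine ⟨0, fun g hg => ?_⟩
    · simp only [T2, cond_false, Finset.mem_insert, Finset.mem_image] at hg
      obtain rfl | ⟨i, -, rfl⟩ := hg
      · exact map_pow (ip _) f e ▸ memH B _
      · have : u i * ip _ f ^ e = ip _ (p' i * f ^ (e - e' i)) := by
          rw [map_mul, map_pow, ← hp', mul_assoc, ← pow_add, Nat.add_sub_cancel' (he i)]
        exact this ▸ memH B _
    · simp only [T1, cond_true, Finset.mem_insert, Finset.mem_image] at hg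
      obtain rfl | rfl | ⟨i, -, rfl⟩ := hg
      · exact map_pow (ip _) f r ▸ memH B _
      · exact memH B (pp _ p₀)
      · exact hp i ▸ memH B (pp _ (p i))) (by
    rintro (_ | _)
    · exact ⟨e, Finset.mem_insert_self _ _⟩
    · exact ⟨r, Finset.mem_insert_self _ _⟩)
  obtain ⟨c1, h1, g1⟩ := hT true
  obtain ⟨c2, h2, g2⟩ := hT false
  simp only [cond_true, cond_false] at h1 g1 h2 g2
  have BW := E.bas _ f W hW
  have NW := E.nb _ f W hW
  obtain ⟨b, hb⟩ := hW.cov O hOv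
  have m0 : M3.ip _ p₀ ∈ W.H c1 := h1 _ (by simp [T1])
  have mi : ∀ i, M3.ip _ p₀ * y i ∈ W.H c1 := fun i => h1 _ (Finset.mem_insert_of_mem
    (Finset.mem_insert_of_mem (Finset.mem_image_of_mem _ (Finset.mem_univ i))))
  have uy : ∀ i, Un O (y i) := fun i => by simpa using hy (X i) (X_ne_zero i)
  have G0 : W.Gen O c1 (M3.ip _ p₀) := by
    obtain ⟨g, hg, hG⟩ := g1 O hOv
    simp only [T1, Finset.mem_insert, Finset.mem_image] at hg
    obtain rfl | rfl | ⟨i, -, rfl⟩ := hg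
    · exact absurd ((BW.oc_div O c1 _ _ hOv hG).1 (m0 O hOv)) hr
    · exact hG
    · intro a ha
      have := hG a ha
      rw [mul_right_comm] at this
      exact this.cancel (uy i)
  obtain ⟨o, ho⟩ := hC n f W O b y hW hb hu (fun i => ⟨_, (NW.H _ _).1 m0 b, G0 b hb, by
    rw [mul_right_comm]; exact (NW.H _ _).1 (mi i) b⟩) hy
  have Fe : ip _ f ^ e ≠ 0 := pow_ne_zero _ F0
  have key : ∀ g, g * ip _ f ^ e ∈ W.H c2 → g ∈ W.H (c2 + (e : ℤ) • W.aa) := fun g hg V hV => by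
    have := BW.oc_mul V _ _ _ _ (hg V hV) (BW.gen_oc V _ _ (genF BW V e))
    rwa [mul_inv_cancel_right₀ Fe] at this
  have pos : 0 ≤ c2 + (e : ℤ) • W.aa := fun j => by
    have := (BW.oc_v j _ _).1 (key 1 (h2 _ (by simp [T2])) _ (BW.ov_v j))
    rcases this with h | h
    · exact absurd h one_ne_zero
    · rw [DV.one] at h
      exact neg_nonpos.1 h
  refine ⟨W, o, c2 + (e : ℤ) • W.aa, hW, ho, BW.free_add _ _ ⟨T2, h2, g2⟩ (BW.free_aa e), pos,
    le_antisymm ?_ (pos o), fun i => key _ (h2 _ (Finset.mem_insert_of_mem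
      (Finset.mem_image_of_mem (fun i => u i * ip _ f ^ e) (Finset.mem_univ i))))⟩
  obtain ⟨g, hg, hG⟩ := g2 O hOv
  obtain ⟨w, hw, rfl⟩ : ∃ w ∈ O, g = w * ip _ f ^ e := by
    simp only [T2, Finset.mem_insert, Finset.mem_image] at hg
    obtain rfl | ⟨i, -, rfl⟩ := hg
    · exact ⟨1, one_mem _, (one_mul _).symm⟩
    · exact ⟨_, hu1 i, rfl⟩
  have G := BW.gen_mul O _ _ _ _ hG (genF BW O e)
  rw [mul_inv_cancel_right₀ Fe, ← ho, BW.gen_v] at G
  rw [← ho] at hw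
  have := ((DV.mem_F _).1 hw).resolve_left G.1
  rw [G.2] at this
  exact neg_nonneg.1 this

end

end Pool.Agent.MP_ee8c61_ag.N3.TC
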