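import Pool.Agent.MP_ee8c61_ag.TW.RAbs
import Pool.Agent.MP_ee8c61_ag.TW.RAmp
import Pool.Agent.MP_ee8c61_ag.TW.RBas
import Pool.Agent.MP_ee8c61_ag.TW.RCen
import Pool.Agent.MP_ee8c61_ag.TW.RCht
import Pool.Agent.MP_ee8c61_ag.TW.RLift
import Pool.Agent.MP_ee8c61_ag.TW.RMain
import Pool.Agent.MP_ee8c61_ag.TW.RNk
import Pool.Agent.MP_ee8c61_ag.TW.RReal
import Pool.Agent.MP_ee8c61_ag.TC.RPert
import Pool.Agent.MP_ee8c61_ag.TC.RSs
import Pool.Agent.MP_ee8c61_ag.N3E.Final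
import Pool.Agent.MP_ee8c61_ag.N3L.R1

/-! A divisor of log general type gives a root. -/

namespace Pool.Agent.MP_ee8c61_ag.N3.TC

open N3.M3E (eout)
open Pool.Agent.MP_ee8c61_ag.TC (rowSs rowPert)

theorem sabs [Base] : SAbs :=
  rAbs eout (M3L.sr1 eout) (rLift eout) (rNk eout rowSs) (rAmp eout) rowPert

theorem main : Main :=
  rMain rBas (fun _ => eout) (fun _ => rReal eout B1.sb1raw (rCen eout)) (fun _ => rCht eout)
    fun _ => sabs

end Pool.Agent.MP_ee8c61_ag.N3.TC
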