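import Pool.Agent.MP_ee8c61_ag.TW.Stmt
import Pool.Agent.MP_ee8c61_ag.TC.Spec
import Pool.Agent.MP_ee8c61_ag.N3E.Asm
import Pool.Agent.MP_ee8c61_ag.N3.Defs

/-! A divisor of log general type gives a root: the statements over a base. -/

namespace Pool.Agent.MP_ee8c61_ag.N3.TC

open H59 hiding pd
open MvPolynomial M3 M3E
open Pool.Agent.MP_ee8c61_ag.TC (Indep red SSs SPert)

noncomputable section

section Base

variable [Base]

/-- Pluricanonical sections lift. -/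
def SLift : Prop := AllM fun _ M => ∀ (o : M.J) (A : M.J → ℚ) (m : ℕ), M.AmpQ A → A o = 0 →
  0 < m → ∀ σ ∈ M.R o (m • (M.kk + M.e o + M.up A)), M.Lf o (m • (M.kk + M.e o + M.up A)) σ

def OfLift : Prop := EOut → SLift

/-- The lemma of Kodaira. -/
def SNk : Prop := ∀ (n : ℕ) (f : Po (n + 1)) (M : Mod (n + 1)) (o : M.J) (c u : M.J → ℤ)
  (g₀ : KK (n + 1)) (g : Fin n → KK (n + 1)), M.OK f → g₀ ∈ M.H c → g₀ ≠ 0 →
  (M.v o).v g₀ = -c o → (∀ i, g i ∈ M.H c) →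
  Indep (M.v o) (fun i => g i / g₀) →
  ∃ (r : ℕ) (t : KK (n + 1)), 0 < r ∧ t ∈ M.H (r • c + u) ∧ t ∉ (M.v o).F (1 - (r • c + u) o)

def OfNk : Prop := EOut → SSs → SNk

/-- An ample divisor whose round-up is the boundary. -/
def SAmp : Prop := ∀ (N : ℕ) (f : Po N) (M : Mod N) (o : M.J) (P : M.J → ℤ), M.OK f → M.Free P →
  0 ≤ P → P o = 0 → ∃ A, M.AmpQ A ∧ A o = 0 ∧ 0 ≤ M.up A ∧ M.up A ≤ 1 ∧
    ∀ j, 0 < P j → 1 ≤ M.up A j

def OfAmp : Prop := EOut → SAmp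

/-- A divisor on which the log canonical divisor is big gives a root. -/
def SAbs : Prop := ∀ (n : ℕ) (f : Po (n + 1)) (la : ℚ) (b : Polynomial ℂ)
  (β : Fin (n + 1) → PX (n + 1) (KK (n + 1))) (Q : PX (n + 1) (KK (n + 1))) (M : Mod (n + 1))
  (o : M.J) (P : M.J → ℤ) (m : ℕ) (s₀ : KK (n + 1)) (s : Fin n → KK (n + 1)),
  BSd f b β Q → M.OK f → M.ex la o = 0 → M.Free P → 0 ≤ P → P o = 0 → 0 < m →
  s₀ ∈ M.R o (m • (M.kk + M.e o + red P)) → s₀ ≠ 0 → (M.v o).v s₀ = -(m * (M.k o + 1)) →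
  (∀ i, s i ∈ M.R o (m • (M.kk + M.e o + red P))) → Indep (M.v o) (fun i => s i / s₀) →
  b.eval (-(la : ℂ)) = 0

def OfAbs : Prop := EOut → SR1 → SLift → SNk → SAmp → SPert → SAbs

/-- A valuation ring whose residue field is generated near its centre by `n` independent
functions is the ring of a divisor of the model. -/
def SCen : Prop := ∀ (n : ℕ) (f : Po (n + 1)) (M : Mod (n + 1)) (O : Vl (n + 1)) (b : M.ι)
  (y : Fin n → KK (n + 1)), M.OK f → M.In b O → ¬Un O (ip _ f) → (∀ i, Lc (M.S.A b) O (y i)) →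
  (∀ P : M3.Po n, P ≠ 0 → Un O (aeval y P)) → ∃ o, (M.v o).O = O

def OfCen : Prop := EOut → SCen

/-- A model on which `O` is a divisor and the poles of the `u i` form a free divisor. -/
def SReal : Prop := ∀ (n q : ℕ) (f : Po (n + 1)) (O : Vl (n + 1)) (u : Fin q → KK (n + 1))
  (y : Fin n → KK (n + 1)), Gd f → IsDiscreteValuationRing O → Ov O → ¬Un O (ip _ f) →
  (∀ i, u i ∈ O ∧ ∃ (e : ℕ) (p : Po (n + 1)), u i * ip _ f ^ e = ip _ p) →
  (∀ P : M3.Po n, P ≠ 0 → Un O (aeval y P)) →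
  ∃ (M : Mod (n + 1)) (o : M.J) (P : M.J → ℤ), M.OK f ∧ (M.v o).O = O ∧ M.Free P ∧ 0 ≤ P ∧
    P o = 0 ∧ ∀ i, u i ∈ M.H P

def OfReal : Prop := EOut → SB1raw → SCen → SReal

/-- The residue is a section on the divisor. -/
def SCht : Prop := ∀ (N r q : ℕ) (F : Fin r → M3.Po N) (j : Fin r) (M : Mod N) (o : M.J)
  (P : M.J → ℤ) (u : Fin q → KK N) (m c : ℕ) (t : KK N), M.OK (pp N (F j)) →
  (∀ i, M3.ip N (F i) / M3.ip N (F j) ∈ Rb N) → 0 ≤ P → P o = 0 → (∀ i, u i ∈ M.H P) →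
  TW.LogRes F j (M.v o).O u m c t →
  t / M3.ip N (F j) ^ c ∈ M.R o (m • (M.kk + M.e o + red P)) ∧ t ≠ 0 ∧
    (M.v o).v (t / M3.ip N (F j) ^ c) = -(m * (M.k o + 1))

def OfCht : Prop := EOut → SCht

end Base

/-- A base over a chart of the blow-up, with its functional equation. -/
def SBas : Prop := ∀ (N r : ℕ) (F : Fin r → M3.Po N) (j : Fin r) (b : Polynomial ℂ),
  H10.IsBS F b → F j ≠ 0 → ∃ _ : Base, Gd (pp N (F j)) ∧
    (∀ V, Ov V ↔ (∀ p, M3.ip N p ∈ V) ∧ ∀ i, M3.ip N (F i) / M3.ip N (F j) ∈ V) ∧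
    ∃ β Q, BSd (pp N (F j)) b β Q

open TW in
/-- The theorem. -/
def Main : Prop := ∀ (N r q : ℕ) (f : Fin r → MvPolynomial (Fin N) ℂ) (b : Polynomial ℂ)
  (j : Fin r) (O : ValuationSubring (K N)) (u : Fin q → K N) (m c : ℕ) (t : Fin N → K N),
  H10.IsBS f b → IsDiscreteValuationRing O → (∀ p, rf p ∈ O) → (∀ i, rf (f i) / rf (f j) ∈ O) →
  f j ≠ 0 → O.valuation (rf (f j)) < 1 →
  (∀ i, u i ∈ O ∧ ∃ (e : ℕ) (p : MvPolynomial (Fin N) ℂ), u i * rf (f j) ^ e = rf p) → 0 < m →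
  (∀ (d : ℕ) (P : MvPolynomial (Fin N) ℂ), P ≠ 0 → P.IsHomogeneous d →
    O.valuation (aeval t P) = 1) →
  (∀ l, LogRes f j O u m c (t l)) → b.eval (-((c : ℂ) / m)) = 0

def OfMain : Prop := SBas → (∀ _ : Base, EOut) → (∀ _ : Base, SReal) → (∀ _ : Base, SCht) →
  (∀ _ : Base, SAbs) → Main

end

end Pool.Agent.MP_ee8c61_ag.N3.TC
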