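import Mathlib

/-!
Pluricanonical forms with logarithmic poles on a divisor over affine space.
-/

namespace Pool.Agent.MP_ee8c61_ag.TW

open MvPolynomial

/-- The field of rational functions. -/
abbrev K (N : ℕ) : Type := FractionRing (MvPolynomial (Fin N) ℂ)

variable {N r q : ℕ}

/-- A polynomial as a rational function. -/
noncomputable abbrev rf (p : MvPolynomial (Fin N) ℂ) : K N := algebraMap _ _ p

/-- An affine chart with etale coordinates `z` in which the divisor with valuation ring `O` is
the hypersurface `z l = 0`; the `D i` are the dual derivations. -/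
structure Chart (O : ValuationSubring (K N)) where
  /-- the coordinate ring -/
  A : Subalgebra ℂ (K N)
  /-- the coordinates -/
  z : Fin N → A
  /-- the derivations -/
  D : Fin N → Derivation ℂ (K N) (K N)
  /-- the index of the equation of the divisor -/
  l : Fin N
  etale : (aeval (R := ℂ) z).toRingHom.Etale
  dual : ∀ i k, D i (z k) = if i = k then 1 else 0
  le : ∀ g ∈ A, g ∈ O
  centre : ∀ g : A, O.valuation g < 1 ↔ z l ∣ g

/-- The Jacobian determinant: `dx = jac dz`. -/
noncomputable def Chart.jac {O : ValuationSubring (K N)} (C : Chart O) : K N :=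
  (Matrix.of fun k i => C.D i (rf (X k))).det

/-- The form `t (dx) ^ m / (f j) ^ c` has a nonzero residue along the divisor of `O`; over the
chart `j` of the blow-up of the ideal `(f i)` this residue has at most logarithmic poles, and only
along poles of the functions `u i`. -/
def LogRes (f : Fin r → MvPolynomial (Fin N) ℂ) (j : Fin r) (O : ValuationSubring (K N))
    (u : Fin q → K N) (m c : ℕ) (t : K N) : Prop :=
  ∀ (C : Chart O) (T : Finset (Fin N)), C.l ∉ T → (∀ p, rf p ∈ C.A) →
    (∀ i, rf (f i) / rf (f j) ∈ C.A) →
    (∀ i, ∃ e : ℕ, u i * (∏ k ∈ T, (C.z k : K N)) ^ e ∈ C.A) →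
    ∃ g ∈ C.A, O.valuation g = 1 ∧
      O.valuation (t * (C.jac * C.z C.l * ∏ k ∈ T, (C.z k : K N)) ^ m / rf (f j) ^ c - g) < 1

end Pool.Agent.MP_ee8c61_ag.TW
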